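import Pool.Agent.Q9.TIG.Tro
import Pool.Agent.Q67.TK.Closed

/-!
# The Lie algebra of the image of a compact group
-/

set_option autoImplicit false
set_option linter.unusedSectionVars false

open Filter Topology NormedSpace

namespace Pool.Agent.Q9.TIG

variable {G : Type*} [Group G] [TopologicalSpace G] [IsTopologicalGroup G] [CompactSpace G]
variable {𝔸 : Type*} [NormedRing 𝔸] [NormedAlgebra ℝ 𝔸] [CompleteSpace 𝔸] [NormOneClass 𝔸]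
  [FiniteDimensional ℝ 𝔸]

variable (G 𝔸) in
/-- A continuous representation with a trace form negative definite on the Lie algebra. -/
structure Rp where
  ρ : G →* 𝔸
  cont : Continuous ρ
  τ : 𝔸 →ₗ[ℝ] ℝ
  comm : ∀ x y, τ (x * y) = τ (y * x)
  neg : ∀ x, (∀ t : ℝ, exp (t • x) ∈ Set.range ρ) → x ≠ 0 → τ (x * x) < 0

namespace Rp

variable (R : Rp G 𝔸)

lemma closed_range : IsClosed (Set.range R.ρ) := (isCompact_range R.cont).isClosed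

lemma mul_inv (g : G) : R.ρ g * R.ρ g⁻¹ = 1 := by rw [← map_mul, mul_inv_cancel, map_one]

lemma inv_mul (g : G) : R.ρ g⁻¹ * R.ρ g = 1 := by rw [← map_mul, inv_mul_cancel, map_one]

/-- the Lie algebra -/
def lie : Submodule ℝ 𝔸 where
  carrier := {x | ∀ t : ℝ, exp (t • x) ∈ Set.range R.ρ}
  zero_mem' := fun t => ⟨1, by simp⟩
  smul_mem' := fun c x hx t => by rw [smul_smul]; exact hx _
  add_mem' := by
    intro x y hx hy t
    rw [smul_add]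
    refine R.closed_range.mem_of_tendsto (trotter (t • x) (t • y)) (Eventually.of_forall fun n => ?_)
    obtain ⟨a, ha⟩ := hx ((1 / 2 ^ n) * t)
    obtain ⟨b, hb⟩ := hy ((1 / 2 ^ n) * t)
    refine ⟨(a * b) ^ 2 ^ n, ?_⟩
    rw [map_pow, map_mul, ha, hb, smul_smul, smul_smul]

lemma mem_lie {x : 𝔸} : x ∈ R.lie ↔ ∀ t : ℝ, exp (t • x) ∈ Set.range R.ρ := Iff.rfl

lemma conj_mem (g : G) {x : 𝔸} (hx : x ∈ R.lie) : R.ρ g * x * R.ρ g⁻¹ ∈ R.lie := by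
  intro t
  obtain ⟨a, ha⟩ := hx t
  refine ⟨g * a * g⁻¹, ?_⟩
  set u : 𝔸ˣ := ⟨R.ρ g, R.ρ g⁻¹, R.mul_inv g, R.inv_mul g⟩ with hu
  let _ : NormedAlgebra ℚ 𝔸 := NormedAlgebra.restrictScalars ℚ ℝ 𝔸
  have h := exp_units_conj u (t • x)
  have e : t • (R.ρ g * x * R.ρ g⁻¹) = (u : 𝔸) * (t • x) * ((u⁻¹ : 𝔸ˣ) : 𝔸) := by
    show _ = R.ρ g * (t • x) * R.ρ g⁻¹
    rw [mul_smul_comm, smul_mul_assoc]
  rw [e, h, map_mul, map_mul, ha]
  rfl

lemma closed_sub (V : Submodule ℝ 𝔸) : IsClosed (V : Set 𝔸) := V.closed_of_finiteDimensional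

/-- the derivative of `exp(tZ) Y exp(-tZ)` at `0` -/
lemma hasDerivAt_conj (Z Y : 𝔸) :
    HasDerivAt (fun t : ℝ => exp (t • Z) * Y * exp (t • (-Z))) (Z * Y - Y * Z) 0 := by
  have h1 := hasDerivAt_exp_smul_const (𝕂 := ℝ) Z (0 : ℝ)
  have h2 := hasDerivAt_exp_smul_const (𝕂 := ℝ) (-Z) (0 : ℝ)
  have h3 := (h1.mul_const Y).mul h2
  refine h3.congr_deriv ?_
  simp [exp_zero, sub_eq_add_neg]

lemma exp_neg_eq {g : G} {x : 𝔸} {t : ℝ} (h : R.ρ g = exp (t • x)) :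
    R.ρ g⁻¹ = exp (t • (-x)) := by
  have h1 : exp (t • (-x)) * exp (t • x) = 1 := by
    rw [smul_neg]
    exact Pool.Agent.Q67.TK.exp_neg_mul _
  calc R.ρ g⁻¹ = (exp (t • (-x)) * exp (t • x)) * R.ρ g⁻¹ := by rw [h1, one_mul]
    _ = exp (t • (-x)) * (R.ρ g * R.ρ g⁻¹) := by rw [← h, mul_assoc]
    _ = _ := by rw [R.mul_inv, mul_one]

/-- `V` is stable under the conjugations by `exp(tX)`, so under the bracket with `X` -/
lemma bracket_of_stable {V : Submodule ℝ 𝔸} {X Y : 𝔸}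
    (h : ∀ t : ℝ, exp (t • X) * Y * exp (t • (-X)) ∈ V) (hY : Y ∈ V) : X * Y - Y * X ∈ V := by
  have h1 := (hasDerivAt_conj X Y).tendsto_slope_zero
  refine (closed_sub V).mem_of_tendsto h1 (Eventually.of_forall fun t => ?_)
  refine V.smul_mem _ (V.sub_mem ?_ ?_)
  · rw [zero_add]
    exact h t
  · simpa [exp_zero] using hY

lemma bracket_mem {X Y : 𝔸} (hX : X ∈ R.lie) (hY : Y ∈ R.lie) : X * Y - Y * X ∈ R.lie := by
  refine bracket_of_stable (fun t => ?_) hY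
  obtain ⟨g, hg⟩ := hX t
  rw [← hg, ← R.exp_neg_eq hg]
  exact R.conj_mem g hY

lemma sq_zero {X : 𝔸} (hX : X ∈ R.lie) (h : R.τ (X * X) = 0) : X = 0 := by
  by_contra h0
  have := R.neg X hX h0
  linarith

/-- the centraliser of `S` in the Lie algebra -/
def z (S : Set 𝔸) : Submodule ℝ 𝔸 where
  carrier := {x | x ∈ R.lie ∧ ∀ s ∈ S, x * s = s * x}
  zero_mem' := ⟨R.lie.zero_mem, fun s _ => by rw [zero_mul, mul_zero]⟩
  smul_mem' := fun c x hx => ⟨R.lie.smul_mem c hx.1, fun s hs => by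
    rw [smul_mul_assoc, mul_smul_comm, hx.2 s hs]⟩
  add_mem' := fun {x y} hx hy => ⟨R.lie.add_mem hx.1 hy.1, fun s hs => by
    rw [add_mul, mul_add, hx.2 s hs, hy.2 s hs]⟩

lemma mem_z {S : Set 𝔸} {x : 𝔸} : x ∈ R.z S ↔ x ∈ R.lie ∧ ∀ s ∈ S, x * s = s * x := Iff.rfl

lemma z_bracket {S : Set 𝔸} {x y : 𝔸} (hx : x ∈ R.z S) (hy : y ∈ R.z S) :
    x * y - y * x ∈ R.z S := by
  refine ⟨R.bracket_mem hx.1 hy.1, fun s hs => ?_⟩
  have h1 := hx.2 s hs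
  have h2 := hy.2 s hs
  calc (x * y - y * x) * s = x * (y * s) - y * (x * s) := by noncomm_ring
    _ = x * (s * y) - y * (s * x) := by rw [h1, h2]
    _ = (x * s) * y - (y * s) * x := by noncomm_ring
    _ = (s * x) * y - (s * y) * x := by rw [h1, h2]
    _ = s * (x * y - y * x) := by noncomm_ring

/-- the elements of `G` that commute with `S` -/
def Lg (S : Set 𝔸) : Set G := {x | ∀ s ∈ S, R.ρ x * s = s * R.ρ x}

lemma Lg_closed (S : Set 𝔸) : IsClosed (R.Lg S) := by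
  have : R.Lg S = ⋂ s ∈ S, {x | R.ρ x * s = s * R.ρ x} := by
    ext x
    simp [Lg]
  rw [this]
  refine isClosed_biInter fun s _ => isClosed_eq ?_ ?_
  · exact R.cont.mul continuous_const
  · exact continuous_const.mul R.cont

lemma Lg_one (S : Set 𝔸) : (1 : G) ∈ R.Lg S := fun s _ => by rw [map_one, one_mul, mul_one]

lemma Lg_mul {S : Set 𝔸} {x y : G} (hx : x ∈ R.Lg S) (hy : y ∈ R.Lg S) : x * y ∈ R.Lg S := by
  intro s hs
  rw [map_mul, mul_assoc, hy s hs, ← mul_assoc, hx s hs, mul_assoc]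

lemma Lg_inv {S : Set 𝔸} {x : G} (hx : x ∈ R.Lg S) : x⁻¹ ∈ R.Lg S := by
  intro s hs
  calc R.ρ x⁻¹ * s = R.ρ x⁻¹ * (s * (R.ρ x * R.ρ x⁻¹)) := by rw [R.mul_inv, mul_one]
    _ = R.ρ x⁻¹ * (R.ρ x * s) * R.ρ x⁻¹ := by rw [hx s hs]; noncomm_ring
    _ = (R.ρ x⁻¹ * R.ρ x) * s * R.ρ x⁻¹ := by noncomm_ring
    _ = s * R.ρ x⁻¹ := by rw [R.inv_mul, one_mul]

lemma z_conj {S : Set 𝔸} {x : G} (hx : x ∈ R.Lg S) {Y : 𝔸} (hY : Y ∈ R.z S) :
    R.ρ x * Y * R.ρ x⁻¹ ∈ R.z S := by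
  refine ⟨R.conj_mem x hY.1, fun s hs => ?_⟩
  have h1 := hx s hs
  have h2 := R.Lg_inv hx s hs
  rw [mul_assoc, h2, ← mul_assoc, mul_assoc (R.ρ x), hY.2 s hs, ← mul_assoc, h1]
  noncomm_ring

lemma exp_Lg {S : Set 𝔸} {Z : 𝔸} (hZ : Z ∈ R.z S) {t : ℝ} {y : G} (hy : R.ρ y = exp (t • Z)) :
    y ∈ R.Lg S := by
  intro s hs
  rw [hy]
  have h : Commute (t • Z) s := by
    show t • Z * s = s * (t • Z)
    rw [smul_mul_assoc, mul_smul_comm, hZ.2 s hs]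
  let _ : NormedAlgebra ℚ 𝔸 := NormedAlgebra.restrictScalars ℚ ℝ 𝔸
  exact h.exp_left

/-- maximum of a continuous function over the orbit of `X` -/
lemma exists_max (S : Set 𝔸) (X : 𝔸) {Φ : 𝔸 → ℝ} (hΦ : Continuous Φ) :
    ∃ x ∈ R.Lg S, ∀ Z ∈ R.z S, ∀ t : ℝ,
      Φ (exp (t • Z) * (R.ρ x * X * R.ρ x⁻¹) * exp (t • (-Z))) ≤ Φ (R.ρ x * X * R.ρ x⁻¹) := by
  have hc : IsCompact (R.Lg S) := (R.Lg_closed S).isCompact
  have hcont : Continuous fun x : G => Φ (R.ρ x * X * R.ρ x⁻¹) :=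
    hΦ.comp ((R.cont.mul continuous_const).mul (R.cont.comp continuous_inv))
  obtain ⟨x, hx, hmax⟩ := hc.exists_isMaxOn ⟨1, R.Lg_one S⟩ hcont.continuousOn
  refine ⟨x, hx, fun Z hZ t => ?_⟩
  obtain ⟨y, hy⟩ := hZ.1 t
  have h1 : Φ (R.ρ (y * x) * X * R.ρ (y * x)⁻¹) ≤ Φ (R.ρ x * X * R.ρ x⁻¹) :=
    hmax (R.Lg_mul (R.exp_Lg hZ hy) hx)
  rw [mul_inv_rev, map_mul, map_mul] at h1
  rw [← hy, ← R.exp_neg_eq hy]
  have e : R.ρ y * (R.ρ x * X * R.ρ x⁻¹) * R.ρ y⁻¹ = R.ρ y * R.ρ x * X * (R.ρ x⁻¹ * R.ρ y⁻¹) := by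
    noncomm_ring
  rw [e]
  exact h1

end Rp

end Pool.Agent.Q9.TIG
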