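import Pool.Agent.Q9.TIG.Reg

/-!
# Cartan subalgebras: conjugacy, stable ones, and a proper subgroup that meets all classes
-/

set_option autoImplicit false
set_option linter.unusedSectionVars false

open Filter Topology NormedSpace

namespace Pool.Agent.Q9.TIG

variable {G : Type*} [Group G] [TopologicalSpace G] [IsTopologicalGroup G] [CompactSpace G]
variable {𝔸 : Type*} [NormedRing 𝔸] [NormedAlgebra ℝ 𝔸] [CompleteSpace 𝔸] [NormOneClass 𝔸]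
  [FiniteDimensional ℝ 𝔸]

namespace Rp

variable (R : Rp G 𝔸)

/-- `c` is its own centraliser in the Lie algebra -/
def IsCart (c : Submodule ℝ 𝔸) : Prop :=
  c ≤ R.lie ∧ ∀ Y ∈ R.lie, (Y ∈ c ↔ ∀ Z ∈ c, Y * Z = Z * Y)

variable {R}

lemma IsCart.comm {c : Submodule ℝ 𝔸} (h : R.IsCart c) {Y Z : 𝔸} (hY : Y ∈ c) (hZ : Z ∈ c) :
    Y * Z = Z * Y := (h.2 Y (h.1 hY)).1 hY Z hZ

/-- a Cartan subalgebra is the centraliser of one of its elements -/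
lemma IsCart.reg {c : Submodule ℝ 𝔸} (h : R.IsCart c) :
    ∃ X ∈ c, ∀ Y ∈ R.lie, X * Y = Y * X → Y ∈ c := by
  obtain ⟨X, hX, hreg⟩ := R.reg le_rfl (fun x hx y hy => R.bracket_mem hx hy) c h.1
  refine ⟨X, hX, fun Y hY hXY => (h.2 Y hY).2 fun Z hZ => ?_⟩
  exact (hreg Z hZ (h.comm hX hZ) Y hY hXY).symm

variable (R)

lemma mem_z_empty {x : 𝔸} : x ∈ R.z ∅ ↔ x ∈ R.lie := by
  rw [mem_z]
  simp

/-- conjugation by `ρ x` is compatible with products -/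
lemma cj_mul (x : G) (Y Z : 𝔸) :
    (R.ρ x * Y * R.ρ x⁻¹) * (R.ρ x * Z * R.ρ x⁻¹) = R.ρ x * (Y * Z) * R.ρ x⁻¹ := by
  calc _ = R.ρ x * Y * (R.ρ x⁻¹ * R.ρ x) * Z * R.ρ x⁻¹ := by noncomm_ring
    _ = _ := by rw [R.inv_mul]; noncomm_ring

lemma cj_cj (x : G) (Y : 𝔸) : R.ρ x * (R.ρ x⁻¹ * Y * R.ρ x) * R.ρ x⁻¹ = Y := by
  calc _ = (R.ρ x * R.ρ x⁻¹) * Y * (R.ρ x * R.ρ x⁻¹) := by noncomm_ring
    _ = Y := by rw [R.mul_inv, one_mul, mul_one]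

lemma cj_cj' (x : G) (Y : 𝔸) : R.ρ x⁻¹ * (R.ρ x * Y * R.ρ x⁻¹) * R.ρ x = Y := by
  calc _ = (R.ρ x⁻¹ * R.ρ x) * Y * (R.ρ x⁻¹ * R.ρ x) := by noncomm_ring
    _ = Y := by rw [R.inv_mul, one_mul, mul_one]

lemma conj_mem' (g : G) {x : 𝔸} (hx : x ∈ R.lie) : R.ρ g⁻¹ * x * R.ρ g ∈ R.lie := by
  have := R.conj_mem g⁻¹ hx
  rwa [inv_inv] at this

lemma z_conj' {S : Set 𝔸} {x : G} (hx : x ∈ R.Lg S) {Y : 𝔸} (hY : Y ∈ R.z S) :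
    R.ρ x⁻¹ * Y * R.ρ x ∈ R.z S := by
  have := R.z_conj (R.Lg_inv hx) hY
  rwa [inv_inv] at this

/-- `Z` commutes with `xYx⁻¹` iff `x⁻¹Zx` commutes with `Y` -/
lemma cj_comm {x : G} {Y Z : 𝔸} :
    (R.ρ x * Y * R.ρ x⁻¹) * Z = Z * (R.ρ x * Y * R.ρ x⁻¹) ↔
      Y * (R.ρ x⁻¹ * Z * R.ρ x) = (R.ρ x⁻¹ * Z * R.ρ x) * Y := by
  have e1 : (R.ρ x * Y * R.ρ x⁻¹) * Z = R.ρ x * (Y * (R.ρ x⁻¹ * Z * R.ρ x)) * R.ρ x⁻¹ := by
    calc _ = R.ρ x * Y * R.ρ x⁻¹ * Z * 1 := by rw [mul_one]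
      _ = R.ρ x * Y * R.ρ x⁻¹ * Z * (R.ρ x * R.ρ x⁻¹) := by rw [R.mul_inv]
      _ = _ := by noncomm_ring
  have e2 : Z * (R.ρ x * Y * R.ρ x⁻¹) = R.ρ x * ((R.ρ x⁻¹ * Z * R.ρ x) * Y) * R.ρ x⁻¹ := by
    calc _ = 1 * (Z * (R.ρ x * Y * R.ρ x⁻¹)) := by rw [one_mul]
      _ = (R.ρ x * R.ρ x⁻¹) * (Z * (R.ρ x * Y * R.ρ x⁻¹)) := by rw [R.mul_inv]
      _ = _ := by noncomm_ring
  rw [e1, e2]
  constructor
  · intro h
    have := congrArg (fun t => R.ρ x⁻¹ * t * R.ρ x) h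
    rwa [R.cj_cj', R.cj_cj'] at this
  · intro h
    rw [h]

/-- Cartan subalgebras are conjugate -/
theorem cart_conj {c d : Submodule ℝ 𝔸} (hc : R.IsCart c) (hd : R.IsCart d) :
    ∃ x : G, (∀ Y ∈ c, R.ρ x * Y * R.ρ x⁻¹ ∈ d) ∧ ∀ Z ∈ d, R.ρ x⁻¹ * Z * R.ρ x ∈ c := by
  obtain ⟨X, hX, hXr⟩ := hc.reg
  obtain ⟨A, hA, hAr⟩ := hd.reg
  obtain ⟨x, -, hx⟩ := R.hunt ∅ (R.mem_z_empty.2 (hc.1 hX)) (R.mem_z_empty.2 (hd.1 hA))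
  have h1 : R.ρ x * X * R.ρ x⁻¹ ∈ d := hAr _ (R.conj_mem x (hc.1 hX)) hx.symm
  have h2 : ∀ Z ∈ d, R.ρ x⁻¹ * Z * R.ρ x ∈ c := by
    intro Z hZ
    refine hXr _ (R.conj_mem' x (hd.1 hZ)) ?_
    exact R.cj_comm.1 (hd.comm h1 hZ)
  refine ⟨x, fun Y hY => ?_, h2⟩
  refine (hd.2 _ (R.conj_mem x (hc.1 hY))).2 fun Z hZ => ?_
  exact R.cj_comm.2 (hc.comm hY (h2 Z hZ))

/-- a maximal commuting set of elements of the Lie algebra that commute with `g` -/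
lemma exists_maxcomm (g : G) : ∃ S : Set 𝔸, (∀ s ∈ S, s ∈ R.lie ∧ R.ρ g * s = s * R.ρ g) ∧
    (∀ a ∈ S, ∀ b ∈ S, a * b = b * a) ∧
    ∀ W ∈ R.lie, R.ρ g * W = W * R.ρ g → (∀ s ∈ S, W * s = s * W) → W ∈ S := by
  obtain ⟨S, hS⟩ := zorn_subset {S : Set 𝔸 | (∀ s ∈ S, s ∈ R.lie ∧ R.ρ g * s = s * R.ρ g) ∧
    (∀ a ∈ S, ∀ b ∈ S, a * b = b * a)} (by
      intro C hC hchain
      refine ⟨⋃₀ C, ⟨?_, ?_⟩, fun s hs => Set.subset_sUnion_of_mem hs⟩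
      · rintro s ⟨T, hT, hs⟩
        exact (hC hT).1 s hs
      · rintro a ⟨T, hT, ha⟩ b ⟨U, hU, hb⟩
        rcases hchain.total hT hU with h | h
        · exact (hC hU).2 a (h ha) b hb
        · exact (hC hT).2 a ha b (h hb))
  refine ⟨S, hS.prop.1, hS.prop.2, fun W hW hgW hcomm => ?_⟩
  have h1 : insert W S ∈ {S : Set 𝔸 | (∀ s ∈ S, s ∈ R.lie ∧ R.ρ g * s = s * R.ρ g) ∧
      (∀ a ∈ S, ∀ b ∈ S, a * b = b * a)} := by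
    refine ⟨?_, ?_⟩
    · rintro s (rfl | hs)
      · exact ⟨hW, hgW⟩
      · exact hS.prop.1 s hs
    · rintro a (rfl | ha) b (rfl | hb)
      · rfl
      · exact hcomm b hb
      · exact (hcomm a ha).symm
      · exact hS.prop.2 a ha b hb
  exact hS.le_of_ge h1 (Set.subset_insert W S) (Set.mem_insert W S)

/-- every `g` normalises a Cartan subalgebra -/
theorem exists_stable (g : G) : ∃ c, R.IsCart c ∧ (∀ Y ∈ c, R.ρ g * Y * R.ρ g⁻¹ ∈ c) ∧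
    ∀ Y ∈ c, R.ρ g⁻¹ * Y * R.ρ g ∈ c := by
  obtain ⟨S, hS1, hS2, hS3⟩ := R.exists_maxcomm g
  have hg : g ∈ R.Lg S := fun s hs => (hS1 s hs).2
  set V := R.z S with hV
  have hVl : V ≤ R.lie := fun x hx => hx.1
  obtain ⟨X, hX, hreg⟩ := R.reg hVl (fun x hx y hy => R.z_bracket hx hy) V le_rfl
  obtain ⟨x, hx, htw⟩ := R.twist S hg hX
  set Y := R.ρ x * X * R.ρ x⁻¹ with hYd
  have hY : Y ∈ V := R.z_conj hx hX
  set σY := R.ρ g * Y * R.ρ g⁻¹ with hσY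
  have hσ : σY ∈ V := R.z_conj hg hY
  have hσ' : R.ρ g⁻¹ * Y * R.ρ g ∈ V := R.z_conj' hg hY
  set W := Y * σY - σY * Y with hW
  have hWV : W ∈ V := R.z_bracket hY hσ
  have hWg : W * R.ρ g = R.ρ g * W := htw Y rfl W rfl
  have hWS : W ∈ S := hS3 W (hVl hWV) hWg.symm fun s hs => hWV.2 s hs
  have hWY : W * Y = Y * W := (hY.2 W hWS).symm
  have hW0 : W = 0 := by
    refine R.sq_zero (hVl hWV) ?_
    have e : W * W = W * Y * σY - W * σY * Y := by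
      have : W * W = W * (Y * σY - σY * Y) := by rw [← hW]
      rw [this]
      noncomm_ring
    rw [e, map_sub, hWY, mul_assoc Y W, R.comm Y (W * σY), sub_self]
  have hYσ : Y * σY = σY * Y := sub_eq_zero.1 hW0
  have hYσ' : Y * (R.ρ g⁻¹ * Y * R.ρ g) = (R.ρ g⁻¹ * Y * R.ρ g) * Y := R.cj_comm.1 hYσ.symm
  -- the centraliser of `Y` in `V` is commutative
  have hab : ∀ Z ∈ V, Y * Z = Z * Y → ∀ Z' ∈ V, Y * Z' = Z' * Y → Z * Z' = Z' * Z := by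
    intro Z hZ hYZ Z' hZ' hYZ'
    have h1 := hreg _ (R.z_conj' hx hZ) (R.cj_comm.1 hYZ) _ (R.z_conj' hx hZ') (R.cj_comm.1 hYZ')
    have h2 := R.cj_comm.2 h1
    rwa [R.cj_cj] at h2
  have hmem : ∀ {Z : 𝔸}, Z ∈ cz V Y ↔ Z ∈ V ∧ Y * Z = Z * Y := mem_cz
  have hYc : Y ∈ cz V Y := hmem.2 ⟨hY, rfl⟩
  have hcart : R.IsCart (cz V Y) := by
    refine ⟨fun Z hZ => hVl (hmem.1 hZ).1, fun Z hZ => ⟨fun h Z' hZ' => ?_, fun h => ?_⟩⟩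
    · exact hab Z (hmem.1 h).1 (hmem.1 h).2 Z' (hmem.1 hZ').1 (hmem.1 hZ').2
    · have h1 : Z ∈ V := by
        refine ⟨hZ, fun s hs => h s ?_⟩
        refine hmem.2 ⟨⟨(hS1 s hs).1, fun t ht => hS2 s hs t ht⟩, ?_⟩
        exact hY.2 s hs
      exact hmem.2 ⟨h1, (h Y hYc).symm⟩
  refine ⟨cz V Y, hcart, fun Z hZ => ?_, fun Z hZ => ?_⟩
  · refine hmem.2 ⟨R.z_conj hg (hmem.1 hZ).1, ?_⟩
    have h1 := hab Z (hmem.1 hZ).1 (hmem.1 hZ).2 _ hσ' hYσ'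
    exact (R.cj_comm.2 h1).symm
  · refine hmem.2 ⟨R.z_conj' hg (hmem.1 hZ).1, ?_⟩
    have h1 := hab Z (hmem.1 hZ).1 (hmem.1 hZ).2 _ hσ hYσ
    exact R.cj_comm.1 h1.symm

/-- the normaliser of `c` -/
def nor (c : Submodule ℝ 𝔸) : Subgroup G where
  carrier := {g | (∀ Y ∈ c, R.ρ g * Y * R.ρ g⁻¹ ∈ c) ∧ ∀ Y ∈ c, R.ρ g⁻¹ * Y * R.ρ g ∈ c}
  one_mem' := by simp
  inv_mem' := by
    rintro g ⟨h1, h2⟩
    refine ⟨fun Y hY => ?_, fun Y hY => ?_⟩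
    · rw [inv_inv]; exact h2 Y hY
    · rw [inv_inv]; exact h1 Y hY
  mul_mem' := by
    rintro g h ⟨g1, g2⟩ ⟨h1, h2⟩
    refine ⟨fun Y hY => ?_, fun Y hY => ?_⟩
    · rw [mul_inv_rev, map_mul, map_mul]
      have := g1 _ (h1 Y hY)
      convert this using 1
      noncomm_ring
    · rw [mul_inv_rev, map_mul, map_mul]
      have := h2 _ (g2 Y hY)
      convert this using 1
      noncomm_ring

lemma nor_closed (c : Submodule ℝ 𝔸) : IsClosed (R.nor c : Set G) := by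
  have : (R.nor c : Set G) = (⋂ Y ∈ c, {g | R.ρ g * Y * R.ρ g⁻¹ ∈ c}) ∩
      ⋂ Y ∈ c, {g | R.ρ g⁻¹ * Y * R.ρ g ∈ c} := by
    ext g
    simp [nor]
  rw [this]
  refine IsClosed.inter ?_ ?_
  · refine isClosed_biInter fun Y _ => ?_
    exact (closed_sub c).preimage ((R.cont.mul continuous_const).mul (R.cont.comp continuous_inv))
  · refine isClosed_biInter fun Y _ => ?_
    exact (closed_sub c).preimage (((R.cont.comp continuous_inv).mul continuous_const).mul R.cont)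

/-- **Main step**: if the Lie algebra is not commutative there is a proper closed subgroup that
meets all conjugacy classes. -/
theorem main (h : ¬ ∀ x ∈ R.lie, ∀ y ∈ R.lie, x * y = y * x) :
    ∃ H : Subgroup G, IsClosed (H : Set G) ∧ H ≠ ⊤ ∧ ∀ g : G, ∃ y : G, y * g * y⁻¹ ∈ H := by
  obtain ⟨c, hc, -⟩ := R.exists_stable 1
  refine ⟨R.nor c, R.nor_closed c, fun htop => h ?_, fun g => ?_⟩
  · obtain ⟨X, hX, hXr⟩ := hc.reg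
    have hle : ∀ A ∈ R.lie, A ∈ c := by
      intro A hA
      obtain ⟨x, -, hx⟩ := R.hunt ∅ (R.mem_z_empty.2 (hc.1 hX)) (R.mem_z_empty.2 hA)
      have h1 : R.ρ x⁻¹ * A * R.ρ x ∈ c := hXr _ (R.conj_mem' x hA) (R.cj_comm.1 hx)
      have h2 : x ∈ R.nor c := by rw [htop]; trivial
      have h3 := h2.1 _ h1
      rwa [R.cj_cj] at h3
    intro x hx y hy
    exact hc.comm (hle x hx) (hle y hy)
  · obtain ⟨d, hd, hd1, hd2⟩ := R.exists_stable g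
    obtain ⟨x, hx1, hx2⟩ := R.cart_conj hc hd
    refine ⟨x⁻¹, ?_⟩
    rw [inv_inv]
    have e1 : ∀ Y, R.ρ (x⁻¹ * g * x) * Y * R.ρ (x⁻¹ * g * x)⁻¹ =
        R.ρ x⁻¹ * (R.ρ g * (R.ρ x * Y * R.ρ x⁻¹) * R.ρ g⁻¹) * R.ρ x := by
      intro Y
      rw [show (x⁻¹ * g * x)⁻¹ = x⁻¹ * g⁻¹ * x by group]
      simp only [map_mul]
      noncomm_ring
    have e2 : ∀ Y, R.ρ (x⁻¹ * g * x)⁻¹ * Y * R.ρ (x⁻¹ * g * x) =
        R.ρ x⁻¹ * (R.ρ g⁻¹ * (R.ρ x * Y * R.ρ x⁻¹) * R.ρ g) * R.ρ x := by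
      intro Y
      rw [show (x⁻¹ * g * x)⁻¹ = x⁻¹ * g⁻¹ * x by group]
      simp only [map_mul]
      noncomm_ring
    refine ⟨fun Y hY => ?_, fun Y hY => ?_⟩
    · rw [e1]
      exact hx2 _ (hd1 _ (hx1 Y hY))
    · rw [e2]
      exact hx2 _ (hd2 _ (hx1 Y hY))

end Rp

end Pool.Agent.Q9.TIG
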