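import Pool.Agent.Q9.TIG.Cart
import Pool.Agent.Y842.CX.Sep

/-!
# From the Lie algebra to the identity component; matrices
-/

set_option autoImplicit false
set_option linter.unusedSectionVars false

open Filter Topology NormedSpace

namespace Pool.Agent.Q9.TIG

section
variable {G : Type*} [Group G] [TopologicalSpace G] [IsTopologicalGroup G] [CompactSpace G]
variable {𝔸 : Type*} [NormedRing 𝔸] [NormedAlgebra ℝ 𝔸] [CompleteSpace 𝔸] [NormOneClass 𝔸]
  [FiniteDimensional ℝ 𝔸]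

/-- if the Lie algebra is commutative, so is the image of the identity component -/
theorem Rp.conn_comm (R : Rp G 𝔸) (h : ∀ x ∈ R.lie, ∀ y ∈ R.lie, x * y = y * x) :
    ∀ a ∈ connectedComponent (1 : G), ∀ b ∈ connectedComponent (1 : G),
      R.ρ a * R.ρ b = R.ρ b * R.ρ a := by
  have h1 : ∀ᶠ u in 𝓝 (1 : 𝔸), u ∈ Set.range R.ρ → ∃ x ∈ R.lie, exp x = u := by
    refine Pool.Agent.Q67.TK.closed_subgroup (H := Set.range R.ρ) ⟨1, map_one _⟩ ?_ ?_
      R.closed_range R.lie ?_ ?_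
    · rintro _ ⟨a, rfl⟩ _ ⟨b, rfl⟩
      exact ⟨a * b, map_mul _ _ _⟩
    · rintro x ⟨a, ha⟩
      have h2 : R.ρ a = exp ((1 : ℝ) • x) := by rw [one_smul]; exact ha
      have h3 := R.exp_neg_eq h2
      rw [one_smul] at h3
      exact ⟨a⁻¹, h3⟩
    · intro x hx
      have := hx 1
      rwa [one_smul] at this
    · exact fun x hx => hx
  have h2 : {g : G | R.ρ g ∈ {u | u ∈ Set.range R.ρ → ∃ x ∈ R.lie, exp x = u}} ∈ 𝓝 (1 : G) := by
    have h3 : Tendsto R.ρ (𝓝 1) (𝓝 1) := by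
      have := R.cont.tendsto 1
      rwa [map_one] at this
    exact h3 h1
  obtain ⟨U, hU, hUo, h1U⟩ := mem_nhds_iff.1 h2
  have hUc : ∀ a ∈ U, ∀ b ∈ U, R.ρ a * R.ρ b = R.ρ b * R.ρ a := by
    intro a ha b hb
    obtain ⟨x, hx, hxa⟩ := hU ha ⟨a, rfl⟩
    obtain ⟨y, hy, hyb⟩ := hU hb ⟨b, rfl⟩
    rw [← hxa, ← hyb]
    have hc : Commute x y := h x hx y hy
    let _ : NormedAlgebra ℚ 𝔸 := NormedAlgebra.restrictScalars ℚ ℝ 𝔸
    exact hc.exp
  set K := Subgroup.closure U with hK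
  have hKo : IsOpen (K : Set G) :=
    K.isOpen_of_mem_nhds (Filter.mem_of_superset (hUo.mem_nhds h1U) Subgroup.subset_closure)
  have hKc : connectedComponent (1 : G) ⊆ K :=
    IsClopen.connectedComponent_subset ⟨K.isClosed_of_isOpen hKo, hKo⟩ K.one_mem
  have hcen : ∀ T : Set G, ∃ C : Subgroup G, ∀ g, g ∈ C ↔ ∀ b ∈ T, R.ρ g * R.ρ b = R.ρ b * R.ρ g := by
    intro T
    refine ⟨⟨⟨⟨{g | ∀ b ∈ T, R.ρ g * R.ρ b = R.ρ b * R.ρ g}, ?_⟩, ?_⟩, ?_⟩, fun g => Iff.rfl⟩
    · intro x y hx hy b hb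
      rw [map_mul, mul_assoc, hy b hb, ← mul_assoc, hx b hb, mul_assoc]
    · intro b _
      rw [map_one, one_mul, mul_one]
    · intro x hx b hb
      have h5 := hx b hb
      calc R.ρ x⁻¹ * R.ρ b = R.ρ x⁻¹ * (R.ρ b * (R.ρ x * R.ρ x⁻¹)) := by rw [R.mul_inv, mul_one]
        _ = R.ρ x⁻¹ * (R.ρ b * R.ρ x) * R.ρ x⁻¹ := by noncomm_ring
        _ = R.ρ x⁻¹ * (R.ρ x * R.ρ b) * R.ρ x⁻¹ := by rw [h5]
        _ = (R.ρ x⁻¹ * R.ρ x) * R.ρ b * R.ρ x⁻¹ := by noncomm_ring
        _ = R.ρ b * R.ρ x⁻¹ := by rw [R.inv_mul, one_mul]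
  obtain ⟨C₁, hC₁⟩ := hcen U
  obtain ⟨C₂, hC₂⟩ := hcen K
  have h6 : K ≤ C₁ := (Subgroup.closure_le _).2 fun a ha => (hC₁ a).2 fun b hb => hUc a ha b hb
  have h7 : K ≤ C₂ := (Subgroup.closure_le _).2 fun a ha => (hC₂ a).2 fun b hb =>
    ((hC₁ b).1 (h6 hb) a ha).symm
  intro a ha b hb
  exact (hC₂ a).1 (h7 (hKc ha)) b (hKc hb)

end

section
open scoped Matrix.Norms.Operator Matrix ComplexOrder

/-- a one parameter group of unitary matrices has a skew Hermitian generator -/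
lemma skew {r : ℕ} {X : Matrix (Fin r) (Fin r) ℂ}
    (h : ∀ t : ℝ, exp (t • X) ∈ Matrix.unitaryGroup (Fin r) ℂ) : Xᴴ = -X := by
  have h1 : ∀ t : ℝ, exp (t • Xᴴ) * exp (t • X) = 1 := by
    intro t
    have h2 := Matrix.mem_unitaryGroup_iff'.1 (h t)
    rw [Matrix.star_eq_conjTranspose, ← Matrix.exp_conjTranspose, Matrix.conjTranspose_smul] at h2
    simpa using h2
  have h3 := (hasDerivAt_exp_smul_const (𝕂 := ℝ) Xᴴ (0 : ℝ)).mul
    (hasDerivAt_exp_smul_const (𝕂 := ℝ) X (0 : ℝ))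
  have h4 : HasDerivAt (fun t : ℝ => exp (t • Xᴴ) * exp (t • X)) 0 0 := by
    have : (fun t : ℝ => exp (t • Xᴴ) * exp (t • X)) = fun _ => 1 := funext h1
    rw [this]
    exact hasDerivAt_const _ _
  have h5 := h3.unique h4
  simp [exp_zero] at h5
  exact eq_neg_of_add_eq_zero_left h5

/-- The representation of a compact group by unitary matrices as an `Rp`. -/
noncomputable def mk {G : Type*} [Group G] [TopologicalSpace G] [IsTopologicalGroup G] [CompactSpace G]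
    {r : ℕ} (ρ : G →* Matrix.unitaryGroup (Fin r) ℂ) (hρ : Continuous ρ) :
    Rp G (Matrix (Fin r) (Fin r) ℂ) where
  ρ := (Matrix.unitaryGroup (Fin r) ℂ).subtype.comp ρ
  cont := continuous_subtype_val.comp hρ
  τ := Complex.reLm.comp (Matrix.traceLinearMap (Fin r) ℝ ℂ)
  comm := fun x y => by
    simp [Matrix.trace_mul_comm x y]
  neg := by
    intro X hX hX0
    have hs : Xᴴ = -X := by
      refine skew fun t => ?_
      obtain ⟨g, hg⟩ := hX t
      convert (ρ g).2 using 1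
      exact hg.symm
    have e : X * X = -(Xᴴ * X) := by rw [hs]; simp
    have h1 : (Xᴴ * X).trace ≠ 0 := fun h => hX0 (Matrix.trace_conjTranspose_mul_self_eq_zero_iff.1 h)
    have h2 : 0 ≤ (Xᴴ * X).trace := (Matrix.posSemidef_conjTranspose_mul_self X).trace_nonneg
    have h3 : 0 < (Xᴴ * X).trace.re := by
      have h4 := lt_of_le_of_ne h2 h1.symm
      exact (Complex.lt_def.1 h4).1
    simp only [LinearMap.comp_apply, Matrix.traceLinearMap_apply, Complex.reLm_coe]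
    rw [e, Matrix.trace_neg, Complex.neg_re]
    linarith

/-- **Main theorem**: if every set of representatives of the conjugacy classes generates a dense
subgroup, the identity component is commutative. -/
theorem comm_of_tig (G : Type) [Group G] [TopologicalSpace G] [IsTopologicalGroup G]
    [CompactSpace G] [T2Space G]
    (h : ∀ H : Subgroup G, IsClosed (H : Set G) → (∀ g : G, ∃ y : G, y * g * y⁻¹ ∈ H) → H = ⊤) :
    ∀ a ∈ connectedComponent (1 : G), ∀ b ∈ connectedComponent (1 : G), a * b = b * a := by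
  intro a ha b hb
  by_contra hab
  obtain ⟨r, ρ, hρ, hne⟩ := Pool.Agent.Y842.CX.separated_of_compact G (a * b) (b * a) hab
  rcases Nat.eq_zero_or_pos r with rfl | hr
  · apply hne
    apply Subtype.ext
    ext i
    exact i.elim0
  have : Nonempty (Fin r) := ⟨⟨0, hr⟩⟩
  set R := mk ρ hρ with hR
  by_cases hc : ∀ x ∈ R.lie, ∀ y ∈ R.lie, x * y = y * x
  · apply hne
    apply Subtype.ext
    have h1 := R.conn_comm hc a ha b hb
    rw [map_mul, map_mul]
    exact h1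
  · obtain ⟨H, h1, h2, h3⟩ := R.main hc
    exact h2 (h H h1 h3)

end

end Pool.Agent.Q9.TIG
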