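import Mathlib

/-!
# Closed subgroups that meet all conjugacy classes: the profinite part
-/

set_option autoImplicit false

open Topology

namespace Pool.Agent.Q9.TIG

/-- Jordan: a subgroup of finite index that meets all conjugacy classes is the whole group. -/
theorem jordan {P : Type*} [Group P] (N : Subgroup P) [N.FiniteIndex]
    (h : ∀ p : P, ∃ y : P, y * p * y⁻¹ ∈ N) : N = ⊤ := by
  classical
  let X := P ⧸ N
  have : Fintype X := Fintype.ofFinite X
  let Q : Subgroup (Equiv.Perm X) := (MulAction.toPermHom P X).range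
  have : Fintype Q := Fintype.ofFinite Q
  have hb := MulAction.sum_card_fixedBy_eq_card_orbits_mul_card_group Q X
  have htrans : ∀ x y : X, ∃ g : Q, g • x = y := by
    intro x y
    obtain ⟨p, hp⟩ := MulAction.exists_smul_eq P x y
    exact ⟨⟨MulAction.toPermHom P X p, p, rfl⟩, hp⟩
  have horb : Fintype.card (MulAction.orbitRel.Quotient Q X) = 1 := by
    rw [Fintype.card_eq_one_iff]
    refine ⟨Quotient.mk'' ((1 : P) : X), fun q => ?_⟩
    induction q using Quotient.inductionOn' with
    | h x =>
      obtain ⟨g, hg⟩ := htrans ((1 : P) : X) x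
      exact Quotient.sound' ⟨g, hg⟩
  rw [horb, one_mul] at hb
  have hfix : ∀ g : Q, 1 ≤ Fintype.card (MulAction.fixedBy X g) := by
    rintro ⟨_, p, rfl⟩
    rw [Nat.one_le_iff_ne_zero, ← Nat.pos_iff_ne_zero, Fintype.card_pos_iff]
    obtain ⟨y, hy⟩ := h p
    refine ⟨⟨((y⁻¹ : P) : X), ?_⟩⟩
    show p • ((y⁻¹ : P) : X) = ((y⁻¹ : P) : X)
    show ((p * y⁻¹ : P) : X) = ((y⁻¹ : P) : X)
    refine QuotientGroup.eq.2 ?_
    have : (p * y⁻¹)⁻¹ * y⁻¹ = (y * p * y⁻¹)⁻¹ := by group
    rw [this]
    exact N.inv_mem hy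
  have hone : Fintype.card (MulAction.fixedBy X (1 : Q)) = Fintype.card X := by
    refine Fintype.card_congr (Equiv.subtypeUnivEquiv fun x => ?_)
    exact one_smul Q x
  have hsum : (∑ g ∈ (Finset.univ.erase (1 : Q)), 1) + Fintype.card X ≤ Fintype.card Q := by
    rw [← hb, ← Finset.sum_erase_add _ _ (Finset.mem_univ (1 : Q)), hone]
    gcongr with g hg
    exact hfix g
  rw [Finset.sum_const, Finset.card_erase_of_mem (Finset.mem_univ _), Finset.card_univ, smul_eq_mul,
    mul_one] at hsum
  have hQ : 0 < Fintype.card Q := Fintype.card_pos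
  have hX : Fintype.card X ≤ 1 := by omega
  have hsub : Subsingleton X := Fintype.card_le_one_iff_subsingleton.1 hX
  rw [eq_top_iff]
  intro p _
  have h1 : ((1 : P) : X) = ((p : P) : X) := Subsingleton.elim _ _
  rw [QuotientGroup.eq] at h1
  simpa using h1

/-- A closed subgroup of a profinite group that meets all conjugacy classes is the whole group. -/
theorem profinite {P : Type*} [Group P] [TopologicalSpace P] [IsTopologicalGroup P] [CompactSpace P]
    [T2Space P] [TotallyDisconnectedSpace P] (H : Subgroup P) (hH : IsClosed (H : Set P))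
    (h : ∀ p : P, ∃ y : P, y * p * y⁻¹ ∈ H) : H = ⊤ := by
  have h1 := ProfiniteGrp.closedSubgroup_eq_sInf_open (⟨H, hH⟩ : ClosedSubgroup P)
  have h2 : H = sInf {N : Subgroup P | IsOpen (N : Set P) ∧ H ≤ N} := h1
  rw [h2, eq_top_iff, le_sInf_iff]
  rintro N ⟨hN, hHN⟩
  have : N.FiniteIndex := by
    have : DiscreteTopology (P ⧸ N) := QuotientGroup.discreteTopology hN
    have : Finite (P ⧸ N) := finite_of_compact_of_discrete
    exact Subgroup.finiteIndex_of_finite_quotient
  rw [jordan N fun p => (h p).imp fun y hy => hHN hy]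

end Pool.Agent.Q9.TIG
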