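import Pool.Agent.Q9.TIG.Var

/-!
# Regular elements, Cartan subalgebras and their conjugacy
-/

set_option autoImplicit false
set_option linter.unusedSectionVars false

open Filter Topology NormedSpace

namespace Pool.Agent.Q9.TIG

variable {G : Type*} [Group G] [TopologicalSpace G] [IsTopologicalGroup G] [CompactSpace G]
variable {𝔸 : Type*} [NormedRing 𝔸] [NormedAlgebra ℝ 𝔸] [CompleteSpace 𝔸] [NormOneClass 𝔸]
  [FiniteDimensional ℝ 𝔸]

/-- `Y ↦ XY - YX` -/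
noncomputable def ad (X : 𝔸) : 𝔸 →ₗ[ℝ] 𝔸 := LinearMap.mulLeft ℝ X - LinearMap.mulRight ℝ X

lemma ad_apply (X Y : 𝔸) : ad X Y = X * Y - Y * X := rfl

lemma ad_norm (X Y : 𝔸) : ‖ad X Y‖ ≤ 2 * ‖X‖ * ‖Y‖ := by
  rw [ad_apply]
  refine (norm_sub_le _ _).trans ?_
  have h1 := norm_mul_le X Y
  have h2 := norm_mul_le Y X
  linarith [mul_comm ‖X‖ ‖Y‖]

/-- the centraliser of `X` in `V` -/
noncomputable def cz (V : Submodule ℝ 𝔸) (X : 𝔸) : Submodule ℝ 𝔸 := V ⊓ LinearMap.ker (ad X)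

lemma mem_cz {V : Submodule ℝ 𝔸} {X Y : 𝔸} : Y ∈ cz V X ↔ Y ∈ V ∧ X * Y = Y * X := by
  unfold cz
  rw [Submodule.mem_inf, LinearMap.mem_ker, ad_apply, sub_eq_zero]

namespace Rp

variable (R : Rp G 𝔸)

/-- for small `ε` the centraliser of `X + εZ` is contained in the centraliser of `X` -/
lemma small {V : Submodule ℝ 𝔸} (hV : V ≤ R.lie) (hbr : ∀ x ∈ V, ∀ y ∈ V, x * y - y * x ∈ V)
    {X Z : 𝔸} (hX : X ∈ V) (hXZ : X * Z = Z * X) :
    ∃ ε : ℝ, ε ≠ 0 ∧ cz V (X + ε • Z) ≤ cz V X := by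
  set Rg : Submodule ℝ 𝔸 := V.map (ad X) with hRg
  have hRgV : Rg ≤ V := by
    rintro _ ⟨y, hy, rfl⟩
    exact hbr _ hX _ hy
  have hker : LinearMap.ker ((ad X).domRestrict Rg) = ⊥ := by
    rw [LinearMap.ker_eq_bot']
    rintro ⟨u, hu⟩ h0
    have h0' : ad X u = 0 := h0
    have hu0 : u = 0 := by
      refine R.sq_zero (hV (hRgV hu)) ?_
      obtain ⟨y, hy, hyu⟩ := hu
      have hcomm : X * u = u * X := sub_eq_zero.1 h0'
      have e : u * u = X * y * u - y * X * u := by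
        have : u * u = (X * y - y * X) * u := by
          have := hyu
          rw [ad_apply] at this
          rw [this]
        rw [this, sub_mul]
      rw [e, map_sub]
      have t1 : R.τ (X * y * u) = R.τ (y * X * u) := by
        rw [mul_assoc, R.comm, mul_assoc, ← hcomm, mul_assoc]
      rw [t1, sub_self]
    exact Subtype.ext hu0
  obtain ⟨K, hK, hanti⟩ := LinearMap.exists_antilipschitzWith _ hker
  have hb : ∀ u ∈ Rg, ‖u‖ ≤ K * ‖ad X u‖ := by
    intro u hu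
    have := hanti.le_mul_dist (⟨u, hu⟩ : Rg) 0
    rw [dist_zero_right, map_zero, dist_zero_right] at this
    exact this
  have hKp : (0 : ℝ) < K := hK
  set ε : ℝ := 1 / (2 * (K : ℝ) * (‖Z‖ + 1)) / 2 with hε
  have hZp : 0 < ‖Z‖ + 1 := by positivity
  have hεp : 0 < ε := by positivity
  refine ⟨ε, hεp.ne', fun Y hY => ?_⟩
  rw [mem_cz] at hY ⊢
  refine ⟨hY.1, ?_⟩
  set u : 𝔸 := ad X Y with hu
  have huR : u ∈ Rg := ⟨Y, hY.1, rfl⟩
  have h1 : ad X u = -(ε • ad Z u) := by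
    have hc : (X + ε • Z) * Y - Y * (X + ε • Z) = 0 := sub_eq_zero.2 hY.2
    have h2 : ad X ((X + ε • Z) * Y - Y * (X + ε • Z)) = ad X u + ε • ad Z u := by
      simp only [ad_apply, hu]
      have e1 : X * ((X + ε • Z) * Y - Y * (X + ε • Z)) - ((X + ε • Z) * Y - Y * (X + ε • Z)) * X =
          (X * (X * Y - Y * X) - (X * Y - Y * X) * X) +
          ε • ((X * Z) * Y - X * Y * Z - Z * Y * X + Y * (Z * X)) := by
        simp only [mul_add, add_mul, mul_sub, sub_mul, smul_mul_assoc, mul_smul_comm, smul_sub,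
          smul_add, ← mul_assoc]
        abel
      have hA : X * Z * Y = Z * X * Y := by rw [hXZ]
      have hB : Y * (Z * X) = Y * (X * Z) := by rw [hXZ]
      rw [e1, hA, hB]
      congr 2
      noncomm_ring
    rw [hc, map_zero] at h2
    exact (neg_eq_of_add_eq_zero_left h2.symm).symm
  have h3 := hb u huR
  rw [h1, norm_neg, norm_smul, Real.norm_of_nonneg hεp.le] at h3
  have h4 := ad_norm Z u
  have h5 : ‖u‖ ≤ 1 / 2 * ‖u‖ := by
    calc ‖u‖ ≤ K * (ε * ‖ad Z u‖) := h3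
      _ ≤ K * (ε * (2 * ‖Z‖ * ‖u‖)) := by gcongr
      _ ≤ K * (ε * (2 * (‖Z‖ + 1) * ‖u‖)) := by gcongr; linarith
      _ = 1 / 2 * ‖u‖ := by
        rw [hε]
        field_simp
  have h6 : u = 0 := by
    rw [← norm_le_zero_iff]
    linarith [norm_nonneg u]
  rw [hu, ad_apply, sub_eq_zero] at h6
  exact h6

/-- regular elements of `𝔠`: what commutes with `X` commutes with all elements of `𝔠` that commute
with `X` -/
theorem reg {V : Submodule ℝ 𝔸} (hV : V ≤ R.lie) (hbr : ∀ x ∈ V, ∀ y ∈ V, x * y - y * x ∈ V)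
    (c : Submodule ℝ 𝔸) (hc : c ≤ V) :
    ∃ X ∈ c, ∀ Z ∈ c, X * Z = Z * X → ∀ Y ∈ V, X * Y = Y * X → Z * Y = Y * Z := by
  obtain ⟨X, hX, hmin⟩ := (measure fun X : 𝔸 => Module.finrank ℝ (cz V X)).wf.has_min
    (c : Set 𝔸) ⟨0, c.zero_mem⟩
  refine ⟨X, hX, fun Z hZ hXZ Y hY hXY => ?_⟩
  obtain ⟨ε, hε, hle⟩ := R.small hV hbr (hc hX) hXZ
  have h1 : ¬ Module.finrank ℝ (cz V (X + ε • Z)) < Module.finrank ℝ (cz V X) :=
    hmin _ (c.add_mem hX (c.smul_mem _ hZ))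
  have h2 : cz V (X + ε • Z) = cz V X :=
    Submodule.eq_of_le_of_finrank_le hle (not_lt.1 h1)
  have h3 : Y ∈ cz V (X + ε • Z) := by
    rw [h2, mem_cz]
    exact ⟨hY, hXY⟩
  rw [mem_cz] at h3
  have h4 := h3.2
  rw [add_mul, mul_add, hXY, smul_mul_assoc, mul_smul_comm] at h4
  exact smul_right_injective 𝔸 hε (add_left_cancel h4)

end Rp

end Pool.Agent.Q9.TIG
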