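import Mathlib

/-!
# The Lie-Trotter product formula in a real Banach algebra
-/

set_option autoImplicit false
set_option linter.unusedSectionVars false

open Filter Topology NormedSpace

namespace Pool.Agent.Q9.TIG

variable {𝔸 : Type*} [NormedRing 𝔸] [NormedAlgebra ℝ 𝔸] [CompleteSpace 𝔸] [NormOneClass 𝔸]

lemma norm_exp_le (x : 𝔸) : ‖exp x‖ ≤ Real.exp ‖x‖ := by
  have h1 := norm_expSeries_summable' (𝕂 := ℝ) x
  have h2 : HasSum (fun n : ℕ => ((n.factorial : ℝ)⁻¹) • ‖x‖ ^ n) (Real.exp ‖x‖) := by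
    rw [Real.exp_eq_exp_ℝ]
    exact exp_series_hasSum_exp' (𝕂 := ℝ) ‖x‖
  rw [exp_eq_tsum ℝ]
  refine (norm_tsum_le_tsum_norm h1).trans ?_
  rw [← h2.tsum_eq]
  refine h1.tsum_le_tsum (fun n => ?_) h2.summable
  rw [norm_smul, norm_inv, RCLike.norm_natCast, smul_eq_mul]
  exact mul_le_mul_of_nonneg_left (norm_pow_le x n) (by positivity)

lemma telescope (a b : 𝔸) (M : ℝ) (ha : ‖a‖ ≤ M) (hb : ‖b‖ ≤ M) (n : ℕ) :
    ‖a ^ (n + 1) - b ^ (n + 1)‖ ≤ (n + 1) * ‖a - b‖ * M ^ n := by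
  induction n with
  | zero => simp
  | succ n ih =>
    have hM : 0 ≤ M := (norm_nonneg a).trans ha
    have e : a ^ (n + 1 + 1) - b ^ (n + 1 + 1) =
        a ^ (n + 1) * (a - b) + (a ^ (n + 1) - b ^ (n + 1)) * b := by
      rw [pow_succ a (n + 1), pow_succ b (n + 1)]
      noncomm_ring
    rw [e]
    calc _ ≤ ‖a ^ (n + 1) * (a - b)‖ + ‖(a ^ (n + 1) - b ^ (n + 1)) * b‖ := norm_add_le _ _
      _ ≤ ‖a ^ (n + 1)‖ * ‖a - b‖ + ‖a ^ (n + 1) - b ^ (n + 1)‖ * ‖b‖ :=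
        add_le_add (norm_mul_le _ _) (norm_mul_le _ _)
      _ ≤ M ^ (n + 1) * ‖a - b‖ + ((n + 1) * ‖a - b‖ * M ^ n) * M := by
        have h1 : ‖a ^ (n + 1)‖ ≤ M ^ (n + 1) :=
          (norm_pow_le a _).trans (pow_le_pow_left₀ (norm_nonneg _) ha _)
        gcongr
      _ = _ := by push_cast; ring

lemma tendsto_f (x y : 𝔸) :
    Tendsto (fun m : ℕ => (2 : ℝ) ^ m * ‖exp ((1 / 2 ^ m : ℝ) • x) *
      exp ((1 / 2 ^ m : ℝ) • y) - exp ((1 / 2 ^ m : ℝ) • (x + y))‖)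
      atTop (𝓝 0) := by
  have hx := hasDerivAt_exp_smul_const (𝕂 := ℝ) x (0 : ℝ)
  have hy := hasDerivAt_exp_smul_const (𝕂 := ℝ) y (0 : ℝ)
  have hxy := hasDerivAt_exp_smul_const (𝕂 := ℝ) (x + y) (0 : ℝ)
  have hf := (hx.mul hy).sub hxy
  have e0 : (exp ((0 : ℝ) • x) * x * exp ((0 : ℝ) • y) +
      exp ((0 : ℝ) • x) * (exp ((0 : ℝ) • y) * y) -
      exp ((0 : ℝ) • (x + y)) * (x + y)) = 0 := by
    simp [exp_zero]
  rw [e0] at hf
  have h1 := hf.tendsto_slope_zero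
  have ht : Tendsto (fun m : ℕ => (1 / 2 ^ m : ℝ)) atTop (𝓝[≠] 0) := by
    rw [tendsto_nhdsWithin_iff]
    constructor
    · have : Tendsto (fun m : ℕ => ((1 / 2 : ℝ)) ^ m) atTop (𝓝 0) :=
        tendsto_pow_atTop_nhds_zero_of_norm_lt_one (by norm_num)
      refine this.congr fun m => ?_
      rw [one_div_pow]
    · refine Eventually.of_forall fun m => ?_
      simp
  have h2 := (h1.comp ht).norm
  rw [norm_zero] at h2
  refine h2.congr fun m => ?_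
  simp only [Function.comp_apply, Pi.mul_apply, Pi.sub_apply]
  rw [norm_smul]
  simp [exp_zero]

theorem trotter (x y : 𝔸) :
    Tendsto (fun m : ℕ => (exp ((1 / 2 ^ m : ℝ) • x) *
      exp ((1 / 2 ^ m : ℝ) • y)) ^ 2 ^ m)
      atTop (𝓝 (exp (x + y))) := by
  rw [tendsto_iff_norm_sub_tendsto_zero]
  have h1 := (tendsto_f x y).mul_const (Real.exp (‖x‖ + ‖y‖))
  rw [zero_mul] at h1
  refine squeeze_zero (fun _ => norm_nonneg _) (fun m => ?_) h1
  set a := exp ((1 / 2 ^ m : ℝ) • x) * exp ((1 / 2 ^ m : ℝ) • y) with ha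
  set b := exp ((1 / 2 ^ m : ℝ) • (x + y)) with hb
  have e1 : exp (x + y) = b ^ 2 ^ m := by
    letI : NormedAlgebra ℚ 𝔸 := NormedAlgebra.restrictScalars ℚ ℝ 𝔸
    rw [hb, ← exp_nsmul]
    congr 1
    rw [← Nat.cast_smul_eq_nsmul ℝ, smul_smul]
    push_cast
    have h2 : (2 : ℝ) ^ m ≠ 0 := pow_ne_zero _ two_ne_zero
    rw [mul_one_div, div_self h2, one_smul]
  rw [e1]
  have hn : ‖(1 / 2 ^ m : ℝ)‖ = 1 / 2 ^ m := by
    rw [norm_div, norm_pow]; norm_num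
  set M := Real.exp ((1 / 2 ^ m) * (‖x‖ + ‖y‖)) with hM
  have hbM : ‖b‖ ≤ M := by
    refine (norm_exp_le _).trans ?_
    rw [hM, Real.exp_le_exp, norm_smul, hn]
    gcongr
    exact norm_add_le _ _
  have haM : ‖a‖ ≤ M := by
    refine (norm_mul_le _ _).trans ?_
    rw [hM, mul_add, Real.exp_add]
    refine mul_le_mul ?_ ?_ (norm_nonneg _) (Real.exp_nonneg _)
    · refine (norm_exp_le _).trans ?_
      rw [Real.exp_le_exp, norm_smul, hn]
    · refine (norm_exp_le _).trans ?_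
      rw [Real.exp_le_exp, norm_smul, hn]
  obtain ⟨k, hk⟩ : ∃ k : ℕ, 2 ^ m = k + 1 := ⟨2 ^ m - 1, by have := Nat.one_le_two_pow (n := m); omega⟩
  have hkR : (k : ℝ) + 1 = 2 ^ m := by exact_mod_cast hk.symm
  rw [hk]
  refine (telescope a b M haM hbM k).trans ?_
  rw [hkR]
  refine mul_le_mul_of_nonneg_left ?_ (by positivity)
  have hM1 : 1 ≤ M := by
    rw [hM]; exact Real.one_le_exp (by positivity)
  calc M ^ k ≤ M ^ (k + 1) := pow_le_pow_right₀ hM1 (Nat.le_succ k)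
    _ = Real.exp (‖x‖ + ‖y‖) := by
      rw [hM, ← Real.exp_nat_mul]
      congr 1
      push_cast
      rw [hkR]
      field_simp

end Pool.Agent.Q9.TIG
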