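import Pool.Agent.Q9.TIG.Base

/-!
# Variational arguments
-/

set_option autoImplicit false
set_option linter.unusedSectionVars false

open Filter Topology NormedSpace

namespace Pool.Agent.Q9.TIG

variable {G : Type*} [Group G] [TopologicalSpace G] [IsTopologicalGroup G] [CompactSpace G]
variable {𝔸 : Type*} [NormedRing 𝔸] [NormedAlgebra ℝ 𝔸] [CompleteSpace 𝔸] [NormOneClass 𝔸]
  [FiniteDimensional ℝ 𝔸]

namespace Rp

variable (R : Rp G 𝔸)

lemma τ_cont : Continuous R.τ := LinearMap.continuous_of_finiteDimensional _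

/-- the derivative of a linear function along a curve -/
lemma τ_deriv {c : ℝ → 𝔸} {c' : 𝔸} {t : ℝ} (h : HasDerivAt c c' t) :
    HasDerivAt (fun t => R.τ (c t)) (R.τ c') t :=
  (LinearMap.toContinuousLinearMap R.τ).hasFDerivAt.comp_hasDerivAt t h

lemma deriv_zero {f : ℝ → ℝ} {f' : ℝ} (hf : HasDerivAt f f' 0) (hmax : ∀ t, f t ≤ f 0) : f' = 0 :=
  (IsLocalMax.hasDerivAt_eq_zero (Eventually.of_forall hmax) hf)

/-- an element of the orbit of `X` commutes with `A` -/
theorem hunt (S : Set 𝔸) {X A : 𝔸} (hX : X ∈ R.z S) (hA : A ∈ R.z S) :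
    ∃ x ∈ R.Lg S, (R.ρ x * X * R.ρ x⁻¹) * A = A * (R.ρ x * X * R.ρ x⁻¹) := by
  obtain ⟨x, hx, hmax⟩ := R.exists_max S X (Φ := fun Y => R.τ (Y * A))
    (R.τ_cont.comp (continuous_id.mul continuous_const))
  refine ⟨x, hx, ?_⟩
  set Y := R.ρ x * X * R.ρ x⁻¹ with hYdef
  have hY : Y ∈ R.z S := R.z_conj hx hX
  set V := Y * A - A * Y with hV
  have hVz : V ∈ R.z S := R.z_bracket hY hA
  have h1 := R.τ_deriv ((hasDerivAt_conj V Y).mul_const A)
  have h2 := deriv_zero h1 (fun t => by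
    have := hmax V hVz t
    simpa [exp_zero] using this)
  have h3 : R.τ ((V * Y - Y * V) * A) = R.τ (V * V) := by
    have e1 : (V * Y - Y * V) * A = V * (Y * A) - Y * (V * A) := by noncomm_ring
    have e2 : V * V = V * (Y * A) - (V * A) * Y := by
      have e3 : V * V = V * (Y * A - A * Y) := by rw [← hV]
      rw [e3, mul_sub, mul_assoc V A Y]
    rw [e1, e2, map_sub, map_sub, R.comm Y (V * A)]
  rw [h3] at h2
  exact sub_eq_zero.1 (R.sq_zero hVz.1 h2)

/-- in the orbit of `X` there is `Y` such that `[Y, gYg⁻¹]` commutes with `g` -/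
theorem twist (S : Set 𝔸) {g : G} (hg : g ∈ R.Lg S) {X : 𝔸} (hX : X ∈ R.z S) :
    ∃ x ∈ R.Lg S, ∀ Y, Y = R.ρ x * X * R.ρ x⁻¹ → ∀ W, W = Y * (R.ρ g * Y * R.ρ g⁻¹) -
      (R.ρ g * Y * R.ρ g⁻¹) * Y → W * R.ρ g = R.ρ g * W := by
  obtain ⟨x, hx, hmax⟩ := R.exists_max S X (Φ := fun Y => R.τ (R.ρ g * Y * R.ρ g⁻¹ * Y))
    (R.τ_cont.comp (((continuous_const.mul continuous_id).mul continuous_const).mul continuous_id))
  refine ⟨x, hx, fun Y hYdef W hW => ?_⟩
  rw [← hYdef] at hmax
  have hY : Y ∈ R.z S := hYdef ▸ R.z_conj hx hX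
  set a := R.ρ g with ha
  set b := R.ρ g⁻¹ with hb
  have hab : a * b = 1 := R.mul_inv g
  have hba : b * a = 1 := R.inv_mul g
  have hs : a * Y * b ∈ R.z S := R.z_conj hg hY
  have hs' : b * Y * a ∈ R.z S := by
    have := R.z_conj (R.Lg_inv hg) hY
    rwa [inv_inv] at this
  set V := (Y * (b * Y * a) - (b * Y * a) * Y) + W with hV
  have hWz : W ∈ R.z S := hW ▸ R.z_bracket hY hs
  have hVz : V ∈ R.z S := (R.z S).add_mem (R.z_bracket hY hs') hWz
  have hc := hasDerivAt_conj V Y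
  have h1 := R.τ_deriv ((((hc.const_mul a).mul_const b)).mul hc)
  have h2 := deriv_zero h1 (fun t => by
    have := hmax V hVz t
    simpa [exp_zero] using this)
  have h3 : R.τ (a * (V * Y - Y * V) * b * Y + a * Y * b * (V * Y - Y * V)) = R.τ (V * V) := by
    have e2 : V * V = (V * Y * (b * Y * a) - V * (b * Y * a) * Y) +
        (V * Y * (a * Y * b) - V * (a * Y * b) * Y) := by
      have : V * V = V * (Y * (b * Y * a) - b * Y * a * Y + (Y * (a * Y * b) - a * Y * b * Y)) := by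
        rw [← hW, ← hV]
      rw [this]
      noncomm_ring
    have e1 : a * (V * Y - Y * V) * b * Y + a * Y * b * (V * Y - Y * V) =
        (a * (V * Y * b * Y) - a * (Y * (V * b * Y))) +
          ((a * Y * b) * (V * Y) - (a * Y * b) * Y * V) := by noncomm_ring
    rw [e1, e2]
    simp only [map_add, map_sub]
    have t1 : R.τ (a * (V * Y * b * Y)) = R.τ (V * Y * (b * Y * a)) := by
      rw [R.comm]; congr 1; noncomm_ring
    have t2 : R.τ (a * (Y * (V * b * Y))) = R.τ (V * (b * Y * a) * Y) := by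
      rw [← mul_assoc, R.comm]; congr 1; noncomm_ring
    have t3 : R.τ ((a * Y * b) * (V * Y)) = R.τ (V * Y * (a * Y * b)) := by
      rw [R.comm]
    have t4 : R.τ ((a * Y * b) * Y * V) = R.τ (V * (a * Y * b) * Y) := by
      rw [R.comm]; congr 1; noncomm_ring
    rw [t1, t2, t3, t4]
  have h4 : V = 0 := by
    refine R.sq_zero hVz.1 ?_
    rw [← h3, ← h2]
    congr 1
    simp [exp_zero]
  -- b W a = W
  have h5 : b * W * a = W := by
    have e : b * W * a = -(Y * (b * Y * a) - (b * Y * a) * Y) := by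
      rw [hW]
      calc b * (Y * (a * Y * b) - a * Y * b * Y) * a
          = (b * Y * a) * Y * (b * a) - (b * a) * Y * (b * Y * a) := by noncomm_ring
        _ = _ := by rw [hba]; noncomm_ring
    rw [e]
    have := h4
    rw [hV] at this
    exact (eq_neg_of_add_eq_zero_right this).symm
  calc W * a = a * (b * W * a) := by
        rw [mul_assoc b, ← mul_assoc a, hab, one_mul]
    _ = a * W := by rw [h5]

end Rp

end Pool.Agent.Q9.TIG
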